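import Mathlib
import Pool.Agent.Lib.MP_dfc315_mp.H72Main

set_option autoImplicit false

namespace Pool.Agent.Results.MP_dfc315_mp.BothReadings

open Pool.Agent.Lib.MP_dfc315_mp

/-- The system `u_t = u_xx + 2 u (u v)_x - u ^ 3 v ^ 2`, `v_t = - v_xx + 2 v (u v)_x + u ^ 2 v ^ 3`
is an S-integrable system of NLS type, and no chain of differential substitutions links it to a
member of the family (LL), nor to a member of the anisotropic Landau-Lifschitz spin family. -/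
theorem result : (∃ S : Evol, S.IsGauge) ∧ ∀ S : Evol, S.IsGauge →
    S.IsNLSType ∧ ∀ T : Evol, T.IsLL ∨ T.IsSpin → ¬ Linked S T := by
  refine ⟨?_, fun S hS => ⟨gauge_nls hS, fun T hT => gauge_not_linked hS hT⟩⟩
  obtain ⟨J, -⟩ := exists_ratJets ℂ (FractionRing (MvPolynomial Idx ℂ))
  exact ⟨⟨_, J, ![J.x (0, 2) + 2 * J.x (0, 0) * (J.x (0, 1) * J.x (1, 0) + J.x (0, 0) * J.x (1, 1)) -
    J.x (0, 0) ^ 3 * J.x (1, 0) ^ 2, -J.x (1, 2) + 2 * J.x (1, 0) * (J.x (0, 1) * J.x (1, 0) +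
    J.x (0, 0) * J.x (1, 1)) + J.x (0, 0) ^ 2 * J.x (1, 0) ^ 3]⟩, rfl, rfl⟩

end Pool.Agent.Results.MP_dfc315_mp.BothReadings
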