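import Mathlib
import Pool.Agent.Lib.MP_dfc315_mp.H41Main

set_option autoImplicit false

namespace Pool.Agent.Results.MP_dfc315_mp.DriftSpin

open Pool.Agent.Lib.MP_dfc315_mp

/-- The system `u_t = u_xx + u_x - 2 (u_x ^ 2 + 1 + u ^ 4) / (u + v) + 2 u ^ 3`,
`v_t = - v_xx + v_x + 2 (v_x ^ 2 + 1 + v ^ 4) / (u + v) - 2 v ^ 3` is an S-integrable system of NLS
type, and no chain of differential substitutions links it to a member of the family (LL), nor to a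
member of the anisotropic Landau-Lifschitz spin family. -/
theorem result : (∃ S : Evol, S.IsDrift) ∧ ∀ S : Evol, S.IsDrift →
    S.IsNLSType ∧ ∀ T : Evol, T.IsLL ∨ T.IsSpin → ¬ Linked S T := by
  refine ⟨?_, fun S hS => ⟨drift_nls hS, fun T hT => drift_not_linked hS hT⟩⟩
  obtain ⟨J, -⟩ := exists_ratJets ℂ (FractionRing (MvPolynomial Idx ℂ))
  exact ⟨⟨_, J, ![J.x (0, 2) + J.x (0, 1) - 2 * (J.x (0, 1) ^ 2 + 1 + J.x (0, 0) ^ 4) /
    (J.x (0, 0) + J.x (1, 0)) + 2 * J.x (0, 0) ^ 3, -J.x (1, 2) + J.x (1, 1) +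
    2 * (J.x (1, 1) ^ 2 + 1 + J.x (1, 0) ^ 4) / (J.x (0, 0) + J.x (1, 0)) - 2 * J.x (1, 0) ^ 3]⟩,
    rfl, rfl⟩

end Pool.Agent.Results.MP_dfc315_mp.DriftSpin
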