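import Mathlib
import Pool.Agent.Lib.MP_dfc315_mp.Main

set_option autoImplicit false

namespace Pool.Agent.Results.MP_dfc315_mp.NotLinked

open Pool.Agent.Lib.MP_dfc315_mp

/-- The system `u_t = u_xx - 2 (u_x ^ 2 + 1 + u ^ 4) / (u + v) + 2 u ^ 3`,
`v_t = - v_xx + 2 (v_x ^ 2 + 1 + v ^ 4) / (u + v) - 2 v ^ 3` is an S-integrable system of NLS type,
and no chain of differential substitutions links it to a member of the family (LL). -/
theorem result : (∃ S : Evol, S.IsXYZ) ∧ ∀ S : Evol, S.IsXYZ →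
    S.IsNLSType ∧ ∀ T : Evol, T.IsLL → ¬ Linked S T := by
  refine ⟨?_, fun S hS => ⟨xyz_nls hS, fun T hT => not_linked hS hT⟩⟩
  obtain ⟨J, -⟩ := exists_ratJets ℂ (FractionRing (MvPolynomial Idx ℂ))
  exact ⟨⟨_, J, P2 J.x (J.x (0, 0) + J.x (1, 0))⁻¹⟩, by simp [P2, div_eq_mul_inv],
    by simp [P2, div_eq_mul_inv]⟩

end Pool.Agent.Results.MP_dfc315_mp.NotLinked
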